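import Pool.Agent.Helper25.DI.Defs

/-!
# MP_506470_co, module DI A1: basic facts on lines
-/

namespace SetHom

variable {V : Type} {G : SimpleGraph V}

theorem lineA_clq {N : ℕ} (hN : NoCone G N) {L : Set V} (hL : LineA G N L) :
    ∀ x ∈ L, ∀ y ∈ L, x ≠ y → G.Adj x y := by
  obtain ⟨K, hK, hKn, rfl⟩ := hL
  intro x hx y hy hxy
  rcases hx with hx | hx <;> rcases hy with hy | hy
  · exact hK x hx y hy hxy
  · exact (hy x hx).symm
  · exact hx y hy
  · exact hN K hK hKn x y hx hy hxy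

theorem A1_clqset {N : ℕ} (hN : NoCone G N) {L : Set V} (hL : LineA G N L) {Q : Finset V}
    (hQ : (Q : Set V) ⊆ L) : Clq G Q :=
  fun x hx y hy hxy => lineA_clq hN hL x (hQ hx) y (hQ hy) hxy

theorem A1_eq {N : ℕ} (hN : NoCone G N) {L : Set V} (hL : LineA G N L) {K' : Finset V}
    (hK' : (K' : Set V) ⊆ L) (hc : K'.card = N) : L = {x | x ∈ K' ∨ Full G x K'} := by
  classical
  have hclq := A1_clqset hN hL hK'
  have hLc := lineA_clq hN hL
  obtain ⟨K, hK, hKn, hLK⟩ := hL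
  ext x
  constructor
  · intro hx
    by_cases h : x ∈ K'
    · exact Or.inl h
    · right
      intro a ha
      exact hLc x hx a (hK' ha) (by rintro rfl; exact h ha)
  · rintro (h | h)
    · exact hK' h
    · by_contra hxL
      have h1 : ∃ k ∈ K, ¬ G.Adj x k := by
        by_contra hcon
        push Not at hcon
        exact hxL (by rw [hLK]; exact Or.inr hcon)
      obtain ⟨k, hk, hxk⟩ := h1
      have hkL : k ∈ L := by rw [hLK]; exact Or.inl hk
      have hxk' : x ≠ k := by rintro rfl; exact hxL hkL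
      have hkK' : k ∉ K' := fun hk' => hxk (h k hk')
      have hkf : Full G k K' := fun a ha =>
        hLc k hkL a (hK' ha) (by rintro rfl; exact hkK' ha)
      exact hxk (hN K' hclq hc x k h hkf hxk')

theorem A1_sub {K Q' : Finset V} (hQ' : Clq G Q') (hK : K ⊆ Q') :
    (Q' : Set V) ⊆ {x | x ∈ K ∨ Full G x K} := by
  intro x hx
  by_cases h : x ∈ K
  · exact Or.inl h
  · right
    intro a ha
    exact hQ' x hx a (hK ha) (by rintro rfl; exact h ha)

theorem lineA_ex (hs : SetHomogeneous G) (hcl : ∀ n : ℕ, ∃ A : Finset V, Clq G A ∧ A.card = n)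
    (N : ℕ) {Q : Finset V} (hQ : Clq G Q) : ∃ L, LineA G N L ∧ (Q : Set V) ⊆ L := by
  obtain ⟨Q', h1, h2, h3⟩ := clq_extend hs hcl hQ (n := Q.card + N) (by omega)
  obtain ⟨K, hK, hKc⟩ := Finset.exists_subset_card_eq (s := Q') (n := N) (by omega)
  refine ⟨{x | x ∈ K ∨ Full G x K}, ⟨K, h2.mono hK, hKc, rfl⟩, ?_⟩
  intro x hx
  exact A1_sub h2 hK (h1 hx)

theorem lineA_uniq {N : ℕ} (hN : NoCone G N) {L L' : Set V} (hL : LineA G N L)
    (hL' : LineA G N L') {Q : Finset V} (hQ : N ≤ Q.card) (h : (Q : Set V) ⊆ L)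
    (h' : (Q : Set V) ⊆ L') : L = L' := by
  obtain ⟨K, hK, hKc⟩ := Finset.exists_subset_card_eq hQ
  have hKQ : (K : Set V) ⊆ Q := fun x hx => hK hx
  rw [A1_eq hN hL (hKQ.trans h) hKc, ← A1_eq hN hL' (hKQ.trans h') hKc]

theorem lineA_inf (hs : SetHomogeneous G) (hcl : ∀ n : ℕ, ∃ A : Finset V, Clq G A ∧ A.card = n)
    {N : ℕ} {L : Set V} (hL : LineA G N L) : L.Infinite := by
  obtain ⟨K, hK, hKn, rfl⟩ := hL
  intro hfin
  obtain ⟨B, h1, h2, h3⟩ := clq_extend hs hcl hK (n := N + hfin.toFinset.card + 1) (by omega)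
  have h4 : B ⊆ hfin.toFinset := by
    intro x hx
    rw [Set.Finite.mem_toFinset]
    exact A1_sub h2 h1 hx
  have h5 := Finset.card_le_card h4
  omega

theorem lineA_map {N : ℕ} {L : Set V} (hL : LineA G N L) (φ : G ≃g G) :
    LineA G N (φ '' L) := by
  obtain ⟨K, hK, hKn, rfl⟩ := hL
  refine ⟨K.map φ.toEquiv.toEmbedding, ?_, by rw [Finset.card_map, hKn], ?_⟩
  · intro x hx y hy hxy
    obtain ⟨x', hx', rfl⟩ := Finset.mem_map.1 hx
    obtain ⟨y', hy', rfl⟩ := Finset.mem_map.1 hy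
    exact φ.map_adj_iff.2 (hK x' hx' y' hy' (fun e => hxy (by rw [e])))
  · ext z
    constructor
    · rintro ⟨x, hx, rfl⟩
      rcases hx with hx | hx
      · exact Or.inl (Finset.mem_map_of_mem _ hx)
      · right
        intro a ha
        obtain ⟨a', ha', rfl⟩ := Finset.mem_map.1 ha
        exact φ.map_adj_iff.2 (hx a' ha')
    · rintro (hz | hz)
      · obtain ⟨x, hx, rfl⟩ := Finset.mem_map.1 hz
        exact ⟨x, Or.inl hx, rfl⟩
      · obtain ⟨x, rfl⟩ := φ.surjective z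
        refine ⟨x, Or.inr ?_, rfl⟩
        intro a ha
        exact φ.map_adj_iff.1 (hz _ (Finset.mem_map_of_mem φ.toEquiv.toEmbedding ha))

theorem lineA_out {N : ℕ} (hN : NoCone G N) {L : Set V} (hL : LineA G N L) {x : V} (hx : x ∉ L)
    {Q : Finset V} (hQ : (Q : Set V) ⊆ L) (h : Full G x Q) : Q.card < N := by
  by_contra hle
  push Not at hle
  obtain ⟨K, hK, hKc⟩ := Finset.exists_subset_card_eq hle
  have hKQ : (K : Set V) ⊆ Q := fun y hy => hK hy
  apply hx
  rw [A1_eq hN hL (hKQ.trans hQ) hKc]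
  exact Or.inr (fun a ha => h a (hK ha))

end SetHom
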