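import Pool.Agent.Helper28.DI.A1

/-!
# MP_506470_co, module DI A2: trimming lines, transitivity on tuples of lines
-/

namespace SetHom

variable {V : Type} {G : SimpleGraph V}

theorem A2_inter_finite {N : ℕ} (hN : NoCone G N) {L L' : Set V} (hL : LineA G N L)
    (hL' : LineA G N L') (hne : L ≠ L') : (L ∩ L').Finite := by
  by_contra hinf
  obtain ⟨Q, hQ, hQc⟩ := Set.Infinite.exists_subset_card_eq hinf N
  exact hne (lineA_uniq hN hL hL' (le_of_eq hQc.symm) (hQ.trans Set.inter_subset_left)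
    (hQ.trans Set.inter_subset_right))

theorem A2_nbr_finite {N : ℕ} (hN : NoCone G N) {L : Set V} (hL : LineA G N L) {x : V}
    (hx : x ∉ L) : {y | y ∈ L ∧ G.Adj x y}.Finite := by
  by_contra hinf
  obtain ⟨Q, hQ, hQc⟩ := Set.Infinite.exists_subset_card_eq hinf N
  have := lineA_out hN hL hx (Q := Q) (fun y hy => (hQ hy).1) (fun y hy => (hQ hy).2)
  omega

theorem A2_aux (hs : SetHomogeneous G)
    (hcl : ∀ n : ℕ, ∃ A : Finset V, Clq G A ∧ A.card = n) {N : ℕ} (hN : NoCone G N) (k : ℕ)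
    (L : Fin k → Set V) (hL : ∀ i, LineA G N (L i)) (hinj : Function.Injective L)
    (n : Fin k → ℕ) (s : Finset (Fin k)) : ∃ Ω : Fin k → Finset V,
      (∀ i ∈ s, (Ω i : Set V) ⊆ L i ∧ (Ω i).card = n i) ∧
      (∀ i ∈ s, ∀ x ∈ Ω i, ∀ j, j ≠ i → x ∉ L j) ∧
      ∀ i ∈ s, ∀ j ∈ s, i ≠ j → ∀ x ∈ Ω i, ∀ y ∈ Ω j, x ≠ y ∧ ¬ G.Adj x y := by
  classical
  induction s using Finset.induction_on with
  | empty => exact ⟨fun _ => ∅, by simp, by simp, by simp⟩
  | insert m s hm ih =>
    obtain ⟨Ω, h1, h2, h3⟩ := ih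
    have hbad1 : (⋃ j ∈ (Finset.univ.erase m : Finset (Fin k)), (L m ∩ L j)).Finite := by
      apply Set.Finite.biUnion (Finset.finite_toSet _)
      intro j hj
      have hjm : j ≠ m := (Finset.mem_erase.1 hj).1
      exact A2_inter_finite hN (hL m) (hL j) (fun e => hjm (hinj e).symm)
    have hbad2 : (⋃ j ∈ s, ⋃ x ∈ Ω j, {y | y ∈ L m ∧ G.Adj x y}).Finite := by
      apply Set.Finite.biUnion (Finset.finite_toSet _)
      intro j hj
      apply Set.Finite.biUnion (Finset.finite_toSet _)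
      intro x hx
      apply A2_nbr_finite hN (hL m)
      exact h2 j hj x hx m (by rintro rfl; exact hm hj)
    have hinf := (lineA_inf hs hcl (hL m)).sdiff (hbad1.union hbad2)
    obtain ⟨Q, hQ, hQc⟩ := hinf.exists_subset_card_eq (n m)
    have q1 : ∀ y ∈ Q, ∀ j, j ≠ m → y ∉ L j := by
      intro y hy j hj hyj
      apply (hQ hy).2
      left
      exact Set.mem_biUnion (Finset.mem_erase.2 ⟨hj, Finset.mem_univ _⟩) ⟨(hQ hy).1, hyj⟩
    have q2 : ∀ y ∈ Q, ∀ j ∈ s, ∀ x ∈ Ω j, ¬ G.Adj x y := by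
      intro y hy j hj x hx hxy
      apply (hQ hy).2
      right
      exact Set.mem_biUnion hj (Set.mem_biUnion hx ⟨(hQ hy).1, hxy⟩)
    have hne : ∀ i ∈ s, i ≠ m := by
      rintro i hi rfl; exact hm hi
    refine ⟨Function.update Ω m Q, ?_, ?_, ?_⟩
    · intro i hi
      rcases Finset.mem_insert.1 hi with rfl | hi
      · rw [Function.update_self]
        exact ⟨fun y hy => (hQ hy).1, hQc⟩
      · rw [Function.update_of_ne (hne i hi)]
        exact h1 i hi
    · intro i hi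
      rcases Finset.mem_insert.1 hi with rfl | hi
      · rw [Function.update_self]
        exact fun y hy j hj => q1 y hy j hj
      · rw [Function.update_of_ne (hne i hi)]
        exact h2 i hi
    · intro i hi j hj hij
      rcases Finset.mem_insert.1 hi with hi1 | hi1
      · rcases Finset.mem_insert.1 hj with hj1 | hj1
        · exact absurd (hi1.trans hj1.symm) hij
        · rw [hi1, Function.update_self, Function.update_of_ne (hne j hj1)]
          intro x hx y hy
          refine ⟨?_, fun h => q2 x hx j hj1 y hy h.symm⟩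
          rintro rfl
          exact q1 x hx j (hne j hj1) ((h1 j hj1).1 hy)
      · rcases Finset.mem_insert.1 hj with hj1 | hj1
        · rw [hj1, Function.update_self, Function.update_of_ne (hne i hi1)]
          intro x hx y hy
          refine ⟨?_, fun h => q2 y hy i hi1 x hx h⟩
          rintro rfl
          exact q1 x hy i (hne i hi1) ((h1 i hi1).1 hx)
        · rw [Function.update_of_ne (hne i hi1), Function.update_of_ne (hne j hj1)]
          exact h3 i hi1 j hj1 hij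

theorem lineA_trim (hs : SetHomogeneous G)
    (hcl : ∀ n : ℕ, ∃ A : Finset V, Clq G A ∧ A.card = n) {N : ℕ} (hN : NoCone G N) (k : ℕ)
    (L : Fin k → Set V) (hL : ∀ i, LineA G N (L i)) (hinj : Function.Injective L)
    (n : Fin k → ℕ) : ∃ Ω : Fin k → Finset V, (∀ i, (Ω i : Set V) ⊆ L i ∧ (Ω i).card = n i) ∧
      ∀ i j, i ≠ j → ∀ x ∈ Ω i, ∀ y ∈ Ω j, x ≠ y ∧ ¬ G.Adj x y := by
  obtain ⟨Ω, h1, -, h3⟩ := A2_aux hs hcl hN k L hL hinj n Finset.univ
  exact ⟨Ω, fun i => h1 i (Finset.mem_univ _),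
    fun i j => h3 i (Finset.mem_univ _) j (Finset.mem_univ _)⟩

theorem lineA_trans (hs : SetHomogeneous G)
    (hcl : ∀ n : ℕ, ∃ A : Finset V, Clq G A ∧ A.card = n) {N : ℕ} (hN : NoCone G N) (k : ℕ)
    (L M : Fin k → Set V) (hL : ∀ i, LineA G N (L i)) (hLi : Function.Injective L)
    (hM : ∀ i, LineA G N (M i)) (hMi : Function.Injective M) :
    ∃ φ : G ≃g G, ∀ i, φ '' L i = M i := by
  classical
  obtain ⟨Ω, hΩ, hΩ2⟩ := lineA_trim hs hcl hN k L hL hLi (fun i => N + 2 + i)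
  obtain ⟨Ω', hΩ', hΩ2'⟩ := lineA_trim hs hcl hN k M hM hMi (fun i => N + 2 + i)
  have hcq : ∀ i, Clq G (Ω i) := fun i => A1_clqset hN (hL i) (hΩ i).1
  have hcq' : ∀ i, Clq G (Ω' i) := fun i => A1_clqset hN (hM i) (hΩ' i).1
  -- the bijections
  have hex : ∀ i, ∃ f : V → V, Set.InjOn f (Ω i) ∧ f '' (Ω i : Set V) = Ω' i := fun i =>
    exists_map ((hΩ i).2.trans (hΩ' i).2.symm)
  choose f hf1 hf2 using hex
  have hfm : ∀ i, ∀ x ∈ Ω i, f i x ∈ Ω' i := by
    intro i x hx
    have : f i x ∈ f i '' (Ω i : Set V) := ⟨x, hx, rfl⟩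
    rw [hf2] at this
    exact this
  have huniq : ∀ i j x, x ∈ Ω i → x ∈ Ω j → i = j := by
    intro i j x hi hj
    by_contra hne
    exact (hΩ2 i j hne x hi x hj).1 rfl
  have huniq' : ∀ i j x, x ∈ Ω' i → x ∈ Ω' j → i = j := by
    intro i j x hi hj
    by_contra hne
    exact (hΩ2' i j hne x hi x hj).1 rfl
  let F : V → V := fun x => if h : ∃ i, x ∈ Ω i then f h.choose x else x
  have hF : ∀ i, ∀ x ∈ Ω i, F x = f i x := by
    intro i x hx
    have h : ∃ i, x ∈ Ω i := ⟨i, hx⟩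
    show (if h : ∃ i, x ∈ Ω i then f h.choose x else x) = f i x
    rw [dif_pos h, huniq _ _ x h.choose_spec hx]
  let S : Finset V := Finset.univ.biUnion Ω
  have hS : ∀ x, x ∈ S ↔ ∃ i, x ∈ Ω i := by
    intro x
    simp [S]
  obtain ⟨φ, hφ⟩ := SHmap hs S F
    (by
      intro x hx y hy hxy
      obtain ⟨i, hi⟩ := (hS x).1 hx
      obtain ⟨j, hj⟩ := (hS y).1 hy
      rw [hF i x hi, hF j y hj] at hxy
      have hij : i = j := huniq' i j _ (hfm i x hi) (hxy ▸ hfm j y hj)
      subst hij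
      exact hf1 i hi hj hxy)
    (by
      intro x hx y hy
      obtain ⟨i, hi⟩ := (hS x).1 hx
      obtain ⟨j, hj⟩ := (hS y).1 hy
      rw [hF i x hi, hF j y hj]
      by_cases hij : i = j
      · subst hij
        by_cases hxy : x = y
        · subst hxy
          simp
        · exact iff_of_true (hcq' i _ (hfm i x hi) _ (hfm i y hj)
            (fun e => hxy (hf1 i hi hj e))) (hcq i x hi y hj hxy)
      · exact iff_of_false (hΩ2' i j hij _ (hfm i x hi) _ (hfm j y hj)).2
          (hΩ2 i j hij x hi y hj).2)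
  -- images of points of `S`
  have him : ∀ i, ∀ x ∈ Ω i, ∃ j, φ x ∈ Ω' j := by
    intro i x hx
    have : φ x ∈ F '' (S : Set V) := by
      rw [← hφ]
      exact ⟨x, (hS x).2 ⟨i, hx⟩, rfl⟩
    obtain ⟨w, hw, e⟩ := this
    obtain ⟨j, hj⟩ := (hS w).1 hw
    rw [hF j w hj] at e
    exact ⟨j, e ▸ hfm j w hj⟩
  have him' : ∀ j, ∀ z ∈ Ω' j, ∃ i, ∃ w ∈ Ω i, φ w = z := by
    intro j z hz
    have : z ∈ f j '' (Ω j : Set V) := by
      rw [hf2]
      exact hz
    obtain ⟨x, hx, rfl⟩ := this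
    have : F x ∈ φ '' (S : Set V) := by
      rw [hφ]
      exact ⟨x, (hS x).2 ⟨j, hx⟩, rfl⟩
    obtain ⟨w, hw, e⟩ := this
    obtain ⟨i, hi⟩ := (hS w).1 hw
    exact ⟨i, w, hi, e.trans (hF j x hx)⟩
  have hpos : ∀ i, (Ω i).Nonempty := by
    intro i
    rw [← Finset.card_pos, (hΩ i).2]
    omega
  have key : ∀ i, φ '' (Ω i : Set V) = Ω' i := by
    intro i
    obtain ⟨x₀, hx₀⟩ := hpos i
    obtain ⟨j, hj⟩ := him i x₀ hx₀
    have hsub : ∀ y ∈ Ω i, φ y ∈ Ω' j := by
      intro y hy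
      by_cases hxy : y = x₀
      · rw [hxy]; exact hj
      · obtain ⟨j', hj'⟩ := him i y hy
        by_cases hjj : j' = j
        · rw [← hjj]; exact hj'
        · exfalso
          have h1 : G.Adj (φ y) (φ x₀) := φ.map_adj_iff.2 (hcq i y hy x₀ hx₀ hxy)
          exact (hΩ2' j' j hjj _ hj' _ hj).2 h1
    have hsup : ∀ z ∈ Ω' j, ∃ w ∈ Ω i, φ w = z := by
      intro z hz
      obtain ⟨i', w, hw, e⟩ := him' j z hz
      by_cases hii : i' = i
      · subst hii; exact ⟨w, hw, e⟩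
      · exfalso
        have h1 := hΩ2 i' i hii w hw x₀ hx₀
        have h2 : z ≠ φ x₀ := by
          intro h
          exact h1.1 (φ.injective (e.trans h))
        have h3 := hcq' j z hz (φ x₀) hj h2
        rw [← e] at h3
        exact h1.2 (φ.map_adj_iff.1 h3)
    have heq : (Ω i).map φ.toEquiv.toEmbedding = Ω' j := by
      ext z
      constructor
      · intro hz
        obtain ⟨w, hw, rfl⟩ := Finset.mem_map.1 hz
        exact hsub w hw
      · intro hz
        obtain ⟨w, hw, rfl⟩ := hsup z hz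
        exact Finset.mem_map_of_mem _ hw
    have hcard := congrArg Finset.card heq
    rw [Finset.card_map, (hΩ i).2, (hΩ' j).2] at hcard
    have hij : i = j := Fin.ext (by omega)
    subst hij
    rw [← heq]
    ext z
    simp
  refine ⟨φ, fun i => ?_⟩
  apply lineA_uniq hN (lineA_map (hL i) φ) (hM i) (Q := Ω' i)
  · rw [(hΩ' i).2]; omega
  · rw [← key i]
    exact Set.image_mono (hΩ i).1
  · exact (hΩ' i).1

end SetHom
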