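import Pool.Agent.Helper28.DI.A2

/-!
# MP_506470_co, module DI A3: cones over arbitrarily large cliques
-/

namespace SetHom

variable {V : Type} {G : SimpleGraph V}

theorem A3_clq_insert [DecidableEq V] {θ : Finset V} (hθ : Clq G θ) {x : V} (hx : Full G x θ) :
    Clq G (insert x θ) := by
  intro a ha b hb hab
  rcases Finset.mem_insert.1 ha with rfl | ha'
  · rcases Finset.mem_insert.1 hb with h | hb'
    · exact absurd h.symm hab
    · exact hx b hb'
  · rcases Finset.mem_insert.1 hb with rfl | hb'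
    · exact (hx a ha').symm
    · exact hθ a ha' b hb' hab

theorem exists_cone (hs : SetHomogeneous G)
    (hcl : ∀ n : ℕ, ∃ A : Finset V, Clq G A ∧ A.card = n)
    (hp : ∃ a b c, G.Adj a b ∧ G.Adj b c ∧ a ≠ c ∧ ¬ G.Adj a c) (N : ℕ) :
    ∃ (K : Finset V) (x y : V), Clq G K ∧ K.card = N ∧ Full G x K ∧ Full G y K ∧ x ≠ y ∧
      ¬ G.Adj x y := by
  classical
  by_contra hcon
  have hN0 : NoCone G N := by
    intro K hK hKn x y hx hy hxy
    by_contra h
    exact hcon ⟨K, x, y, hK, hKn, hx, hy, hxy, h⟩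
  have hex : ∃ N, NoCone G N := ⟨N, hN0⟩
  obtain ⟨M, hM, hmin⟩ : ∃ M, NoCone G M ∧ ∀ m < M, ¬ NoCone G m :=
    ⟨Nat.find hex, Nat.find_spec hex, fun m hm => Nat.find_min hex hm⟩
  obtain ⟨a, b, c, hab, hbc, hac, hnac⟩ := hp
  have hM2 : 2 ≤ M := by
    by_contra hlt
    have h01 : M = 0 ∨ M = 1 := by omega
    rcases h01 with rfl | rfl
    · exact hnac (hM ∅ (by intro x hx; simp at hx) rfl a c (by intro x hx; simp at hx)
        (by intro x hx; simp at hx) hac)
    · exact hnac (hM {b} (by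
        intro x hx y hy hxy
        rw [Finset.mem_singleton] at hx hy
        exact absurd (hx.trans hy.symm) hxy) (by simp) a c
        (by intro x hx; rw [Finset.mem_singleton.1 hx]; exact hab)
        (by intro x hx; rw [Finset.mem_singleton.1 hx]; exact hbc.symm) hac)
  have hnc := hmin (M - 1) (by omega)
  unfold NoCone at hnc
  push Not at hnc
  obtain ⟨θ, hθ, hθc, x, y, hx, hy, hxy, hnxy⟩ := hnc
  have hxθ : x ∉ θ := fun h => G.irrefl (hx x h)
  have hyθ : y ∉ θ := fun h => G.irrefl (hy y h)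
  -- two lines meeting in `θ`
  have hE : LineA G M {z | z ∈ insert x θ ∨ Full G z (insert x θ)} :=
    ⟨insert x θ, A3_clq_insert hθ hx, by rw [Finset.card_insert_of_notMem hxθ, hθc]; omega, rfl⟩
  have hF : LineA G M {z | z ∈ insert y θ ∨ Full G z (insert y θ)} :=
    ⟨insert y θ, A3_clq_insert hθ hy, by rw [Finset.card_insert_of_notMem hyθ, hθc]; omega, rfl⟩
  generalize hEd : {z | z ∈ insert x θ ∨ Full G z (insert x θ)} = E at hE
  generalize hFd : {z | z ∈ insert y θ ∨ Full G z (insert y θ)} = F at hF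
  have hxE : x ∈ E := by rw [← hEd]; exact Or.inl (Finset.mem_insert_self _ _)
  have hyF : y ∈ F := by rw [← hFd]; exact Or.inl (Finset.mem_insert_self _ _)
  have hθE : (θ : Set V) ⊆ E := by
    rw [← hEd]; exact fun z hz => Or.inl (Finset.mem_insert_of_mem hz)
  have hθF : (θ : Set V) ⊆ F := by
    rw [← hFd]; exact fun z hz => Or.inl (Finset.mem_insert_of_mem hz)
  have hxF : x ∉ F := fun h => hnxy (lineA_clq hM hF x h y hyF hxy)
  have hyE : y ∉ E := fun h => hnxy (lineA_clq hM hE x hxE y h hxy)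
  have hEF : E ≠ F := fun h => hxF (h ▸ hxE)
  have hint : E ∩ F = θ := by
    apply Set.Subset.antisymm
    · rintro z ⟨hzE, hzF⟩
      by_contra hzθ
      have hzθ' : z ∉ θ := hzθ
      have hzx : z ≠ x := by rintro rfl; exact hxF hzF
      have hzy : z ≠ y := by rintro rfl; exact hyE hzE
      have h1 := lineA_clq hM hE z hzE x hxE hzx
      have h2 := lineA_clq hM hF z hzF y hyF hzy
      have h3 : Full G z θ := fun t ht =>
        lineA_clq hM hE z hzE t (hθE ht) (by rintro rfl; exact hzθ' ht)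
      apply hnxy
      refine hM (insert z θ) (A3_clq_insert hθ h3) ?_ x y ?_ ?_ hxy
      · rw [Finset.card_insert_of_notMem hzθ', hθc]; omega
      · intro t ht
        rcases Finset.mem_insert.1 ht with rfl | ht'
        · exact h1.symm
        · exact hx t ht'
      · intro t ht
        rcases Finset.mem_insert.1 ht with rfl | ht'
        · exact h2.symm
        · exact hy t ht'
    · exact Set.subset_inter hθE hθF
  -- two different lines meet in `M - 1` points
  have two : ∀ L L', LineA G M L → LineA G M L' → L ≠ L' →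
      ∃ T : Finset V, (T : Set V) = L ∩ L' ∧ T.card = M - 1 := by
    intro L L' hL hL' hne
    obtain ⟨φ, hφ⟩ := lineA_trans hs hcl hM 2 ![E, F] ![L, L']
      (by intro i; fin_cases i <;> assumption)
      (by
        intro i j hij
        fin_cases i <;> fin_cases j
        · rfl
        · exact absurd hij hEF
        · exact absurd hij.symm hEF
        · rfl)
      (by intro i; fin_cases i <;> assumption)
      (by
        intro i j hij
        fin_cases i <;> fin_cases j
        · rfl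
        · exact absurd hij hne
        · exact absurd hij.symm hne
        · rfl)
    have h0 : φ '' E = L := hφ 0
    have h1 : φ '' F = L' := hφ 1
    refine ⟨θ.map φ.toEquiv.toEmbedding, ?_, by rw [Finset.card_map, hθc]⟩
    rw [← h0, ← h1, ← Set.image_inter φ.injective, hint]
    ext z
    simp
  -- every `(M-1)`-subset of a line is the intersection with another line
  have ext : ∀ L, LineA G M L → ∀ T : Finset V, (T : Set V) ⊆ L → T.card = M - 1 →
      ∃ L', LineA G M L' ∧ L' ≠ L ∧ L ∩ L' = T := by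
    intro L hL T hT hTc
    obtain ⟨φ, hφ⟩ := clq_trans hs hθ (A1_clqset hM hL hT) (hθc.trans hTc.symm)
    have key : ∀ L', LineA G M L' → L' ≠ L → (T : Set V) ⊆ L' → L ∩ L' = T := by
      intro L' hL' hne hTL'
      obtain ⟨T', hT', hTc'⟩ := two L L' hL hL' hne.symm
      have hsub : T ⊆ T' := by
        intro z hz
        have : z ∈ (T' : Set V) := by rw [hT']; exact ⟨hT hz, hTL' hz⟩
        exact this
      rw [← hT', Finset.eq_of_subset_of_card_le hsub (by omega)]
    have e1 : (T : Set V) ⊆ φ '' E := by rw [← hφ]; exact Set.image_mono hθE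
    have e2 : (T : Set V) ⊆ φ '' F := by rw [← hφ]; exact Set.image_mono hθF
    by_cases h : φ '' E = L
    · have h2 : φ '' F ≠ L := by
        intro h3
        apply hEF
        exact φ.injective.image_injective (h.trans h3.symm)
      exact ⟨φ '' F, lineA_map hF φ, h2, key _ (lineA_map hF φ) h2 e2⟩
    · exact ⟨φ '' E, lineA_map hE φ, h, key _ (lineA_map hE φ) h e1⟩
  -- two disjoint `(M-1)`-subsets of a line
  obtain ⟨A, hAE, hAc⟩ := (lineA_inf hs hcl hE).exists_subset_card_eq (2 * (M - 1))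
  obtain ⟨T₁, hT₁, hT₁c⟩ := Finset.exists_subset_card_eq (s := A) (n := M - 1) (by omega)
  have hT₂c : (A \ T₁).card = M - 1 := by
    rw [Finset.card_sdiff_of_subset hT₁]; omega
  have hT₁E : (T₁ : Set V) ⊆ E := fun z hz => hAE (hT₁ hz)
  have hT₂E : ((A \ T₁ : Finset V) : Set V) ⊆ E := fun z hz =>
    hAE (Finset.mem_sdiff.1 hz).1
  obtain ⟨L₁, hL₁, hne₁, hi₁⟩ := ext E hE T₁ hT₁E hT₁c
  obtain ⟨L₂, hL₂, hne₂, hi₂⟩ := ext E hE (A \ T₁) hT₂E hT₂c
  have h12 : L₁ ≠ L₂ := by
    rintro rfl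
    rw [hi₁] at hi₂
    have hT : T₁ = A \ T₁ := Finset.coe_injective hi₂
    obtain ⟨z, hz⟩ : T₁.Nonempty := by rw [← Finset.card_pos, hT₁c]; omega
    have hz2 := hz
    rw [hT] at hz2
    exact (Finset.mem_sdiff.1 hz2).2 hz
  obtain ⟨T, hT, hTc⟩ := two L₁ L₂ hL₁ hL₂ h12
  obtain ⟨r, hr⟩ : T.Nonempty := by rw [← Finset.card_pos, hTc]; omega
  have hr' : r ∈ L₁ ∩ L₂ := by rw [← hT]; exact hr
  have hrE : r ∉ E := by
    intro hrE
    have h1 : r ∈ (T₁ : Set V) := by rw [← hi₁]; exact ⟨hrE, hr'.1⟩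
    have h2 : r ∈ ((A \ T₁ : Finset V) : Set V) := by rw [← hi₂]; exact ⟨hrE, hr'.2⟩
    exact (Finset.mem_sdiff.1 h2).2 h1
  have hT₁L : (T₁ : Set V) ⊆ L₁ := by rw [← hi₁]; exact Set.inter_subset_right
  have hT₂L : ((A \ T₁ : Finset V) : Set V) ⊆ L₂ := by rw [← hi₂]; exact Set.inter_subset_right
  have hfull : Full G r A := by
    intro t ht
    have htr : r ≠ t := by rintro rfl; exact hrE (hAE ht)
    by_cases h : t ∈ T₁
    · exact lineA_clq hM hL₁ r hr'.1 t (hT₁L h) htr
    · exact lineA_clq hM hL₂ r hr'.2 t (hT₂L (Finset.mem_sdiff.2 ⟨ht, h⟩)) htr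
  obtain ⟨L₄, hL₄, hsub⟩ := lineA_ex hs hcl M (A3_clq_insert (A1_clqset hM hE hAE) hfull)
  have h4 : L₄ = E := lineA_uniq hM hL₄ hE (Q := A) (by omega)
    (fun z hz => hsub (Finset.mem_insert_of_mem hz)) hAE
  apply hrE
  rw [← h4]
  exact hsub (Finset.mem_insert_self _ _)

end SetHom
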