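import Pool.Agent.Helper74.DI.StM

/-!
# Project DI (MP_26f0da_lc), module HED: heads indexed by a finite type
-/

set_option autoImplicit false

namespace Pool.Agent.Helper28.DI

open Pool.Agent.Helper74 Pool.Agent.Helper74.DI

private theorem hed_step {α Q H : Type} {k : ℕ} (e : H ≃ Fin k)
    (δ : Q → (H → Bool × Option α) → Q × (H → Fin 3)) (w : List α) (c : Q × (H → ℕ)) :
    DR.stp (fun (q : Q) (rd : Fin k → Bool × Option α) =>
      ((δ q fun h => rd (e h)).1, fun i => (δ q fun h => rd (e h)).2 (e.symm i))) w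
      (c.1, fun i => c.2 (e.symm i)) =
    ((sth δ w c).1, fun i => (sth δ w c).2 (e.symm i)) := by
  have h1 : (fun h : H => ((decide (c.2 (e.symm (e h)) = 0), w[c.2 (e.symm (e h)) - 1]?) :
      Bool × Option α)) = fun h => (decide (c.2 h = 0), w[c.2 h - 1]?) := by
    funext h
    simp only [Equiv.symm_apply_apply]
  simp only [DR.stp, sth, h1]

private theorem hed_iter {α Q H : Type} {k : ℕ} (e : H ≃ Fin k)
    (δ : Q → (H → Bool × Option α) → Q × (H → Fin 3)) (w : List α) (q₀ : Q) (n : ℕ) :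
    (DR.stp (fun (q : Q) (rd : Fin k → Bool × Option α) =>
      ((δ q fun h => rd (e h)).1, fun i => (δ q fun h => rd (e h)).2 (e.symm i))) w)^[n]
      (q₀, fun _ => 0) =
    (((sth δ w)^[n] (q₀, fun _ => 0)).1, fun i => ((sth δ w)^[n] (q₀, fun _ => 0)).2 (e.symm i)) := by
  induction n with
  | zero => rfl
  | succ n ih =>
    rw [Function.iterate_succ_apply', Function.iterate_succ_apply', ih]
    exact hed_step e δ w _

theorem hHED : StHED := by
  intro α K
  rw [DR.inL_iff]
  constructor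
  · rintro ⟨Q, hQ, H, hH, δ, q₀, acc, hK⟩
    refine ⟨Q, hQ, Nat.card H, fun (q : Q) (rd : Fin (Nat.card H) → Bool × Option α) =>
      ((δ q fun h => rd (Finite.equivFin H h)).1,
        fun i => (δ q fun h => rd (Finite.equivFin H h)).2 ((Finite.equivFin H).symm i)),
      q₀, acc, fun w => ?_⟩
    rw [hK w]
    refine exists_congr fun n => ?_
    rw [hed_iter (Finite.equivFin H) δ w q₀ n]
  · rintro ⟨Q, hQ, k, δ, q₀, acc, hK⟩
    exact ⟨Q, hQ, Fin k, inferInstance, δ, q₀, acc, hK⟩

end Pool.Agent.Helper28.DI
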